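import Mathlib
import Pool.Agent.R171.Octagon

/-!
# A generically rigid braced polygon graph with a flexible strictly convex realisation
-/

namespace Pool.Agent.Results.MP_ab14aa_co.FlexibleOctagon

open Pool.Agent.R171.Octagon

/-- The square of the distance of two points of the plane. -/
def sqDist (a b : ℝ × ℝ) : ℝ := (a.1 - b.1) ^ 2 + (a.2 - b.2) ^ 2

/-- Twice the signed area of the triangle `a b c`; it is positive iff `a, b, c` are in
counterclockwise order. -/
def area2 (a b c : ℝ × ℝ) : ℝ := (b.1 - a.1) * (c.2 - a.2) - (b.2 - a.2) * (c.1 - a.1)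

/-- A braced polygon graph: a graph on `n ≥ 3` vertices that contains the Hamiltonian cycle
through the vertices in cyclic order (`finRotate n i` is `i + 1` modulo `n`). -/
def IsBracedPolygon {n : ℕ} (G : SimpleGraph (Fin n)) : Prop :=
  3 ≤ n ∧ ∀ i : Fin n, G.Adj i (finRotate n i)

/-- The points `p 0, …, p (n - 1)` are, in this order, the vertices of a strictly convex polygon
(in counterclockwise order): any three of them taken in order are in counterclockwise order. -/
def IsStrictlyConvex {n : ℕ} (p : Fin n → ℝ × ℝ) : Prop :=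
  ∀ i j k : Fin n, i < j → j < k → 0 < area2 (p i) (p j) (p k)

/-- The framework `(G, p)` is flexible: there is a continuous motion `P t`, `t ∈ [0, 1]`, with
`P 0 = p`, that preserves the lengths of all bars, and such that `P t` is not congruent to `p`
for some `t`, that is, some distance of two vertices is different. -/
def Flexible {n : ℕ} (G : SimpleGraph (Fin n)) (p : Fin n → ℝ × ℝ) : Prop :=
  ∃ P : ℝ → Fin n → ℝ × ℝ, ContinuousOn P (Set.Icc 0 1) ∧ P 0 = p ∧
    (∀ t ∈ Set.Icc (0 : ℝ) 1, ∀ u w, G.Adj u w → sqDist (P t u) (P t w) = sqDist (p u) (p w)) ∧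
    ∃ t ∈ Set.Icc (0 : ℝ) 1, ∃ u w, sqDist (P t u) (P t w) ≠ sqDist (p u) (p w)

/-- The configuration `p` is generic: its `2 n` coordinates are algebraically independent over
the rational numbers. -/
def IsGeneric {n : ℕ} (p : Fin n → ℝ × ℝ) : Prop :=
  AlgebraicIndependent ℚ (Sum.elim (fun i => (p i).1) (fun i => (p i).2))

/-- `G` is generically rigid in the plane: `(G, p)` is rigid (not flexible) for all generic `p`. -/
def GenericallyRigid {n : ℕ} (G : SimpleGraph (Fin n)) : Prop :=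
  ∀ p : Fin n → ℝ × ℝ, IsGeneric p → ¬ Flexible G p

/-- The edges of the graph: the sides of the octagon and five braces. -/
def edges : List (Fin 8 × Fin 8) :=
  [(0, 1), (1, 2), (2, 3), (3, 4), (4, 5), (5, 6), (6, 7), (7, 0),
    (1, 4), (1, 6), (0, 3), (3, 6), (4, 7)]

/-- The braced octagon graph. -/
def G8 : SimpleGraph (Fin 8) where
  Adj i j := (i, j) ∈ edges ∨ (j, i) ∈ edges
  symm := ⟨fun _ _ h => h.symm⟩
  loopless := ⟨by decide⟩

theorem braced : IsBracedPolygon G8 := by
  refine ⟨by norm_num, ?_⟩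
  have h : ∀ i : Fin 8, (i, finRotate 8 i) ∈ edges ∨ (finRotate 8 i, i) ∈ edges := by decide
  exact h

theorem edge_mem : ∀ e : Fin 12, (ea e, eb e) ∈ edges ∨ (eb e, ea e) ∈ edges := by decide

theorem genericallyRigid : GenericallyRigid G8 := by
  rintro p hp ⟨P, hc, h0, he, t, ht, u, w, hne⟩
  apply hne
  have h01 : ∀ t ∈ Set.Icc (0 : ℝ) 1, sq (P t 0) (P t 1) = sq (p 0) (p 1) := by
    intro t ht
    exact he t ht 0 1 (Or.inl (by decide))
  have hedge : ∀ t ∈ Set.Icc (0 : ℝ) 1, ∀ e,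
      sq (P t (ea e)) (P t (eb e)) = sq (p (ea e)) (p (eb e)) := by
    intro t ht e
    exact he t ht _ _ (edge_mem e)
  exact rigid (det_generic hp) hc h0 h01 hedge t ht u w

/-- squared coordinate `b` -/
noncomputable def bb (t : ℝ) : ℝ := 1 + t / 4

/-- the sum `a² + c²` -/
noncomputable def uu (t : ℝ) : ℝ := 10 - bb t - 4 / bb t

/-- squared coordinate `a` -/
noncomputable def aa (t : ℝ) : ℝ := (uu t + √(uu t ^ 2 - 16)) / 2

/-- The motion of the octagon. -/
noncomputable def motion (t : ℝ) : Fin 8 → ℝ × ℝ :=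
  ![(-(2 / √(aa t)), 2 / √(bb t)),
    (-√(aa t), √(bb t)),
    (-√(aa t) - √(5 / 4 - bb t), 0),
    (-√(aa t), -√(bb t)),
    (-(2 / √(aa t)), -(2 / √(bb t))),
    (0, -(2 / √(bb t)) - √(5 / 4 - 4 / aa t)),
    (2 / √(aa t), -(2 / √(bb t))),
    (√(aa t), -√(bb t))]

theorem bb_bounds {t : ℝ} (ht : t ∈ Set.Icc (0 : ℝ) 1) : 1 ≤ bb t ∧ bb t ≤ 5 / 4 := by
  unfold bb
  constructor <;> linarith [ht.1, ht.2]

theorem uu_bound {t : ℝ} (ht : t ∈ Set.Icc (0 : ℝ) 1) : 5 ≤ uu t := by
  obtain ⟨h1, h2⟩ := bb_bounds ht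
  unfold uu
  have h3 : 4 / bb t ≤ 5 - bb t := by
    rw [div_le_iff₀ (by linarith)]
    nlinarith
  linarith

theorem aa_facts {t : ℝ} (ht : t ∈ Set.Icc (0 : ℝ) 1) : 4 ≤ aa t ∧ aa t + 4 / aa t = uu t := by
  have h1 := uu_bound ht
  have h2 : (3 : ℝ) ≤ √(uu t ^ 2 - 16) := by
    apply Real.le_sqrt_of_sq_le
    nlinarith
  have h3 : √(uu t ^ 2 - 16) ^ 2 = uu t ^ 2 - 16 := Real.sq_sqrt (by nlinarith)
  have h4 : 4 ≤ aa t := by
    unfold aa
    linarith
  refine ⟨h4, ?_⟩
  have h5 : aa t * aa t + 4 = uu t * aa t := by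
    unfold aa
    nlinarith
  field_simp
  linarith

theorem motion_zero : motion 0 = ![(-1, 2), (-2, 1), (-5 / 2, 0), (-2, -1), (-1, -2),
    (0, -5 / 2), (1, -2), (2, -1)] := by
  have hb : bb 0 = 1 := by unfold bb; norm_num
  have hu : uu 0 = 5 := by unfold uu; rw [hb]; norm_num
  have ha : aa 0 = 4 := by
    unfold aa
    rw [hu]
    have : √((5 : ℝ) ^ 2 - 16) = 3 := by
      rw [show (5 : ℝ) ^ 2 - 16 = 3 ^ 2 by norm_num]
      exact Real.sqrt_sq (by norm_num)
    rw [this]
    norm_num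
  have h4 : √(4 : ℝ) = 2 := by
    rw [show (4 : ℝ) = 2 ^ 2 by norm_num]
    exact Real.sqrt_sq (by norm_num)
  have h14 : √(5 / 4 - 1 : ℝ) = 1 / 2 := by
    rw [show (5 / 4 - 1 : ℝ) = (1 / 2) ^ 2 by norm_num]
    exact Real.sqrt_sq (by norm_num)
  unfold motion
  rw [hb, ha, h4, Real.sqrt_one, h14, show (4 : ℝ) / 4 = 1 by norm_num, h14]
  norm_num

theorem convex : IsStrictlyConvex (motion 0) := by
  rw [motion_zero]
  intro i j k hij hjk
  fin_cases i <;> fin_cases j <;> first | exact absurd hij (by decide) | skip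
  all_goals
    fin_cases k <;> first | exact absurd hjk (by decide) | (simp [area2]; done) |
      (simp [area2]; norm_num; done)

theorem motion_cont : ContinuousOn motion (Set.Icc 0 1) := by
  have hb : ContinuousOn bb (Set.Icc 0 1) := by
    unfold bb
    fun_prop
  have hu : ContinuousOn uu (Set.Icc 0 1) := by
    unfold uu
    apply ContinuousOn.sub
    · exact continuousOn_const.sub hb
    · exact continuousOn_const.div hb (fun t ht => by linarith [(bb_bounds ht).1])
  have ha : ContinuousOn aa (Set.Icc 0 1) := by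
    unfold aa
    exact (hu.add ((hu.pow 2).sub continuousOn_const).sqrt).div_const 2
  have hsa : ContinuousOn (fun t => √(aa t)) (Set.Icc 0 1) := ha.sqrt
  have hsb : ContinuousOn (fun t => √(bb t)) (Set.Icc 0 1) := hb.sqrt
  have hc : ContinuousOn (fun t => 2 / √(aa t)) (Set.Icc 0 1) :=
    continuousOn_const.div hsa (fun t ht => by
      have := (aa_facts ht).1
      exact (Real.sqrt_pos.2 (by linarith)).ne')
  have hd : ContinuousOn (fun t => 2 / √(bb t)) (Set.Icc 0 1) :=
    continuousOn_const.div hsb (fun t ht => by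
      have := (bb_bounds ht).1
      exact (Real.sqrt_pos.2 (by linarith)).ne')
  have hh : ContinuousOn (fun t => √(5 / 4 - bb t)) (Set.Icc 0 1) :=
    (continuousOn_const.sub hb).sqrt
  have hk : ContinuousOn (fun t => √(5 / 4 - 4 / aa t)) (Set.Icc 0 1) :=
    (continuousOn_const.sub (continuousOn_const.div ha (fun t ht => by
      linarith [(aa_facts ht).1]))).sqrt
  apply continuousOn_pi.2
  intro i
  fin_cases i
  · exact hc.neg.prodMk hd
  · exact hsa.neg.prodMk hsb
  · exact (hsa.neg.sub hh).prodMk continuousOn_const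
  · exact hsa.neg.prodMk hsb.neg
  · exact hc.neg.prodMk hd.neg
  · exact continuousOn_const.prodMk (hd.neg.sub hk)
  · exact hc.prodMk hd.neg
  · exact hsa.prodMk hsb.neg

theorem lengths {a b c d h k : ℝ} (hsum : a ^ 2 + c ^ 2 + b ^ 2 + d ^ 2 = 10) (hac : a * c = 2)
    (hbd : b * d = 2) (hh : h ^ 2 + b ^ 2 = 5 / 4) (hk : k ^ 2 + c ^ 2 = 5 / 4) :
    sqDist (-c, d) (-a, b) = 2 ∧ sqDist (-a, b) (-a - h, 0) = 5 / 4 ∧
    sqDist (-a - h, 0) (-a, -b) = 5 / 4 ∧ sqDist (-a, -b) (-c, -d) = 2 ∧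
    sqDist (-c, -d) (0, -d - k) = 5 / 4 ∧ sqDist (0, -d - k) (c, -d) = 5 / 4 ∧
    sqDist (c, -d) (a, -b) = 2 ∧ sqDist (a, -b) (-c, d) = 18 ∧
    sqDist (-a, b) (-c, -d) = 10 ∧ sqDist (-a, b) (c, -d) = 18 ∧
    sqDist (-c, d) (-a, -b) = 10 ∧ sqDist (-a, -b) (c, -d) = 10 ∧
    sqDist (-c, -d) (a, -b) = 10 := by
  unfold sqDist
  refine ⟨?_, ?_, ?_, ?_, ?_, ?_, ?_, ?_, ?_, ?_, ?_, ?_, ?_⟩
  · linear_combination hsum - 2 * hac - 2 * hbd
  · linear_combination hh
  · linear_combination hh
  · linear_combination hsum - 2 * hac - 2 * hbd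
  · linear_combination hk
  · linear_combination hk
  · linear_combination hsum - 2 * hac - 2 * hbd
  · linear_combination hsum + 2 * hac + 2 * hbd
  · linear_combination hsum - 2 * hac + 2 * hbd
  · linear_combination hsum + 2 * hac + 2 * hbd
  · linear_combination hsum - 2 * hac + 2 * hbd
  · linear_combination hsum + 2 * hac - 2 * hbd
  · linear_combination hsum + 2 * hac - 2 * hbd

theorem motion_len {t : ℝ} (ht : t ∈ Set.Icc (0 : ℝ) 1) :
    sqDist (motion t 0) (motion t 1) = 2 ∧ sqDist (motion t 1) (motion t 2) = 5 / 4 ∧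
    sqDist (motion t 2) (motion t 3) = 5 / 4 ∧ sqDist (motion t 3) (motion t 4) = 2 ∧
    sqDist (motion t 4) (motion t 5) = 5 / 4 ∧ sqDist (motion t 5) (motion t 6) = 5 / 4 ∧
    sqDist (motion t 6) (motion t 7) = 2 ∧ sqDist (motion t 7) (motion t 0) = 18 ∧
    sqDist (motion t 1) (motion t 4) = 10 ∧ sqDist (motion t 1) (motion t 6) = 18 ∧
    sqDist (motion t 0) (motion t 3) = 10 ∧ sqDist (motion t 3) (motion t 6) = 10 ∧
    sqDist (motion t 4) (motion t 7) = 10 := by
  obtain ⟨hb1, hb2⟩ := bb_bounds ht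
  obtain ⟨ha1, ha2⟩ := aa_facts ht
  have hsa : √(aa t) ^ 2 = aa t := Real.sq_sqrt (by linarith)
  have hsb : √(bb t) ^ 2 = bb t := Real.sq_sqrt (by linarith)
  have hsa0 : 0 < √(aa t) := Real.sqrt_pos.2 (by linarith)
  have hsb0 : 0 < √(bb t) := Real.sqrt_pos.2 (by linarith)
  have hc : (2 / √(aa t)) ^ 2 = 4 / aa t := by
    rw [div_pow, hsa]
    norm_num
  have hd : (2 / √(bb t)) ^ 2 = 4 / bb t := by
    rw [div_pow, hsb]
    norm_num
  have hac : √(aa t) * (2 / √(aa t)) = 2 := by field_simp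
  have hbd : √(bb t) * (2 / √(bb t)) = 2 := by field_simp
  have h4a : 4 / aa t ≤ 1 := by
    rw [div_le_one (by linarith)]
    exact ha1
  have hh : √(5 / 4 - bb t) ^ 2 = 5 / 4 - bb t := Real.sq_sqrt (by linarith)
  have hk : √(5 / 4 - 4 / aa t) ^ 2 = 5 / 4 - 4 / aa t := Real.sq_sqrt (by linarith)
  have hsum : aa t + 4 / aa t + bb t + 4 / bb t = 10 := by
    rw [ha2]
    unfold uu
    ring
  exact lengths (a := √(aa t)) (b := √(bb t)) (c := 2 / √(aa t)) (d := 2 / √(bb t))
    (h := √(5 / 4 - bb t)) (k := √(5 / 4 - 4 / aa t))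
    (by rw [hsa, hsb, hc, hd]; linarith) hac hbd (by rw [hh, hsb]; ring) (by rw [hk, hc]; ring)

theorem flexible : Flexible G8 (motion 0) := by
  refine ⟨motion, motion_cont, rfl, ?_, 1, ⟨zero_le_one, le_rfl⟩, 1, 3, ?_⟩
  · intro t ht
    obtain ⟨a1, a2, a3, a4, a5, a6, a7, a8, a9, a10, a11, a12, a13⟩ := motion_len ht
    obtain ⟨b1, b2, b3, b4, b5, b6, b7, b8, b9, b10, b11, b12, b13⟩ :=
      motion_len (t := 0) ⟨le_rfl, zero_le_one⟩
    have key : ∀ x ∈ edges, sqDist (motion t x.1) (motion t x.2) =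
        sqDist (motion 0 x.1) (motion 0 x.2) := by
      intro x hx
      unfold edges at hx
      simp only [List.mem_cons, List.not_mem_nil, or_false] at hx
      rcases hx with rfl | rfl | rfl | rfl | rfl | rfl | rfl | rfl | rfl | rfl | rfl | rfl | rfl
      · exact a1.trans b1.symm
      · exact a2.trans b2.symm
      · exact a3.trans b3.symm
      · exact a4.trans b4.symm
      · exact a5.trans b5.symm
      · exact a6.trans b6.symm
      · exact a7.trans b7.symm
      · exact a8.trans b8.symm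
      · exact a9.trans b9.symm
      · exact a10.trans b10.symm
      · exact a11.trans b11.symm
      · exact a12.trans b12.symm
      · exact a13.trans b13.symm
    rintro u w (h | h)
    · exact key (u, w) h
    · have h1 := key (w, u) h
      have hs : ∀ x y, sqDist x y = sqDist y x := by
        intro x y
        unfold sqDist
        ring
      rw [hs, hs (motion 0 u)]
      exact h1
  · have h : ∀ t ∈ Set.Icc (0 : ℝ) 1, sqDist (motion t 1) (motion t 3) = 4 * bb t := by
      intro t ht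
      have e1 : motion t 1 = (-√(aa t), √(bb t)) := rfl
      have e3 : motion t 3 = (-√(aa t), -√(bb t)) := rfl
      rw [e1, e3]
      have hsb : √(bb t) ^ 2 = bb t := Real.sq_sqrt (by linarith [(bb_bounds ht).1])
      simp only [sqDist]
      nlinarith
    rw [h 1 ⟨zero_le_one, le_rfl⟩, h 0 ⟨le_rfl, zero_le_one⟩]
    unfold bb
    norm_num

/-- There is a generically rigid braced polygon graph with a flexible strictly convex
configuration. -/
theorem result : ∃ (n : ℕ) (G : SimpleGraph (Fin n)) (p : Fin n → ℝ × ℝ),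
    IsBracedPolygon G ∧ GenericallyRigid G ∧ IsStrictlyConvex p ∧ Flexible G p :=
  ⟨8, G8, motion 0, braced, genericallyRigid, convex, flexible⟩

end Pool.Agent.Results.MP_ab14aa_co.FlexibleOctagon
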